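import Mathlib
import Pool.Agent.TH377.IG.HilbFin

/-!
# Infinite split embedding problems over all Hilbertian fields

`K` is any Hilbertian field, of any characteristic (the hypothesis is that of the frozen statement
S03429), `F₁/K` any finite Galois extension.

* `WeakSol K F₁ E α`: there are a finite Galois extension `L'/K` containing `F₁` and a
  homomorphism `s : Gal(L'/K) → E` with `α ∘ s` the restriction (for example `L' = F₁` and `s` a
  section of `α`, when the problem is split).
* `SymEP α n` is the group of all `(x, ρ)` with `x` in `E ≀ S_n = (Fin n → E) ⋊ Perm (Fin n)`,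
  `ρ` in `Gal(F₁/K)` and `α (x.left i) = ρ` for every `i`; `symProj α n (x, ρ) = ρ`. For
  `E = G ⋊ Gal(F₁/K)` this is `(G ≀ S_n) ⋊ Gal(F₁/K)`.
* `FPI π` is the fibre product of a (finite or infinite) family of homomorphisms
  `π i : E i → Γ`: the group of all `(x, ρ)` in `(∏ E i) × Γ` with `π i (x i) = ρ` for all `i`.

The theorem: for every countable family of weakly solvable finite embedding problems
`α i : E i → Gal(F₁/K)` and all `n i ≥ ((3 |ker α i| + 2)!)^3`, the embedding problem for the
infinite fibre product over `Gal(F₁/K)` of the groups `SymEP (α i) (n i)` has a proper solution. If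
the `α i` split then this is a split embedding problem with kernel `∏ (ker α i) ≀ S_(n i)`.
-/

set_option autoImplicit false

open Pool.Agent.H391R2.T4
open Pool.Agent.TH377.IG (FPI)

namespace Pool.Agent.Results.MP_e9d732_al.InfiniteFibrePowers

/-- The embedding problem over `K` given by the Galois extension `F₁` and the projection to
`Gal(F₁/K)` of the fibre product of the `π i : E i → Gal(F₁/K)` has a proper solution: there are a
Galois extension `F` of `K` containing `F₁` and an isomorphism `γ` of `Gal(F/K)` with the fibre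
product such that all components of `γ` are continuous and the component in `Gal(F₁/K)` is the
restriction. -/
def ProperSol (K F₁ : Type) [Field K] [Field F₁] [Algebra K F₁] {J : Type} {E : J → Type}
    [∀ i, Group (E i)] (π : ∀ i, E i →* (F₁ ≃ₐ[K] F₁)) : Prop :=
  ∃ (F : Type) (_ : Field F) (_ : Algebra K F) (_ : Algebra F₁ F) (_ : IsScalarTower K F₁ F)
    (_ : IsGalois K F) (γ : (F ≃ₐ[K] F) ≃* FPI π),
    (∀ i, IsOpen {σ : F ≃ₐ[K] F | (γ σ : (∀ i, E i) × (F₁ ≃ₐ[K] F₁)).1 i = 1}) ∧
    ∀ (σ : F ≃ₐ[K] F) (x : F₁),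
      σ (algebraMap F₁ F x) = algebraMap F₁ F ((γ σ : (∀ i, E i) × (F₁ ≃ₐ[K] F₁)).2 x)

end Pool.Agent.Results.MP_e9d732_al.InfiniteFibrePowers

open Pool.Agent.Results.MP_e9d732_al.InfiniteFibrePowers in
theorem Pool.Agent.Results.MP_e9d732_al.InfiniteFibrePowers.result :
    ∀ (K : Type) [Field K],
      (∀ (f : Polynomial (Polynomial K)), f.Monic → Irreducible f →
          (f.map (algebraMap (Polynomial K) (FractionRing (Polynomial K)))).Separable →
          ∀ g : Polynomial K, g ≠ 0 →
            ∃ a : K, g.eval a ≠ 0 ∧ Irreducible (f.map (Polynomial.evalRingHom a))) →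
      ∀ (F₁ : Type) [Field F₁] [Algebra K F₁] [FiniteDimensional K F₁] [IsGalois K F₁]
        (J : Type) [Countable J] (E : J → Type) [∀ i, Group (E i)] [∀ i, Finite (E i)]
        (α : ∀ i, E i →* (F₁ ≃ₐ[K] F₁)), (∀ i, WeakSol K F₁ (E i) (α i)) →
        ∀ n : J → ℕ, (∀ i, ((3 * Nat.card (α i).ker + 2).factorial) ^ 3 ≤ n i) →
          ProperSol K F₁ fun i => symProj (α i) (n i) := by
  intro K _ hK F₁ _ _ _ _ J _ E _ _ α hw n hn
  exact Pool.Agent.TH377.IG.inf_hilb_sym hK F₁ J E α hw n hn
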