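import Mathlib
import Pool.Agent.TH59.WX.PG

/-!
# Embedding problems whose kernel is a direct product of groups `G ≀ S_n`, over Hilbertian fields

Let `G i` be finitely many nontrivial finite groups with trivial centre such that the inner
automorphisms of `G i` have a complement in `Aut(G i)` (for example complete groups, or `A_m` with
`m ≥ 4`, `m ≠ 6`), and let `n i ≥ ((3|G i| + 2)!)^3`.  Let `K` be any Hilbertian field (of any
characteristic; the hypothesis is that of the frozen statement `S03429`) and let
`α : X → Gal(F1/K)` be ANY surjective homomorphism onto the group of a finite Galois extension whose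
kernel is isomorphic to the direct product of the wreath products `G i ≀ S_(n i)` (the factors may
be permuted by `X`; `α` is not assumed to split).  Then `α` has a proper solution.
-/

set_option autoImplicit false

open Pool.Agent.TH59.WX

theorem Pool.Agent.Results.MP_e9d732_al.KernelWreathProducts.result :
    ∀ (ι : Type) [Finite ι] (G : ι → Type) [∀ i, Group (G i)] [∀ i, Finite (G i)]
      [∀ i, Nontrivial (G i)] (n : ι → ℕ), (∀ i, Subgroup.center (G i) = ⊥) →
      (∀ i, ∃ T : Subgroup (MulAut (G i)), IsCompl T (MulAut.conj : G i →* MulAut (G i)).range) →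
      (∀ i, ((3 * Nat.card (G i) + 2).factorial) ^ 3 ≤ n i) →
      ∀ (K : Type) [Field K],
      (∀ (f : Polynomial (Polynomial K)), f.Monic → Irreducible f →
          (f.map (algebraMap (Polynomial K) (FractionRing (Polynomial K)))).Separable →
          ∀ g : Polynomial K, g ≠ 0 →
            ∃ a : K, g.eval a ≠ 0 ∧ Irreducible (f.map (Polynomial.evalRingHom a))) →
      ∀ (F1 : Type) [Field F1] [Algebra K F1] [FiniteDimensional K F1] [IsGalois K F1]
        (X : Type) [Group X] (α : X →* (F1 ≃ₐ[K] F1)), Function.Surjective α →
        Nonempty (α.ker ≃* (∀ i, (Fin (n i) → G i) ⋊[mulAutArrow] Equiv.Perm (Fin (n i)))) →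
        ∃ (F : Type) (_ : Field F) (_ : Algebra K F) (_ : Algebra F1 F)
          (_ : IsScalarTower K F1 F),
          FiniteDimensional K F ∧ IsGalois K F ∧
          ∃ γ : (F ≃ₐ[K] F) ≃* X, ∀ σ : F ≃ₐ[K] F, α (γ σ) = σ.restrictNormal F1 := by
  intro ι _ G _ _ _ n hZ hT hn K _ hK F1 _ _ _ _ X _ α hα hι
  exact hil_prod hZ hT hn K hK F1 X α hα hι
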