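import Mathlib
import Pool.Agent.TH444.TW.Fin

/-!
# A class of (infinite) embedding problems with proper solutions over every Hilbertian field

`Cls K` (file `Pool/Agent/TH444/TW/ClsDef.lean`) is the smallest class of homomorphisms
`p : W' → W` of groups which contains
* all `p` which have a homomorphic section and a finite abelian kernel,
* the projections `A^k ⋊ W → W`, `A` the group of a regular Galois extension of `K(t)`, `W` acting
  through any homomorphism `W → A ≀ S_k`,
* the projections `(G ≀ S_n)^k ⋊ W → W`, `G` any finite group, `n ≥ ((3 |G| + 2)!)^3`, `W` acting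
  through any homomorphism `W → Aut(G) ≀ S_k` (twisted wreath products),
* all epimorphisms whose kernel is isomorphic to a direct product of finitely many groups
  `G_i ≀ S_(n_i)`, `G_i` a nontrivial finite group with trivial centre and with `Inn G_i`
  complemented in `Aut G_i`, `n_i ≥ ((3 |G_i| + 2)!)^3`,
and which is closed under composition and under quotients (`p ∘ q` in the class, `q` surjective,
then `p` in the class).

The theorem: let `K` be a Hilbertian field of any characteristic (the hypothesis is that of the
frozen statement `S03429`), `L` a finite Galois extension of `K` and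
`Gal(L/K) = W 0 ← W 1 ← W 2 ← ...` a sequence of homomorphisms in the class. Then the embedding
problem given by `L/K` and the projection of the inverse limit of the `W i` to `Gal(L/K)` has a
proper solution over `K`.
-/

set_option autoImplicit false

open Pool.Agent.TH444.TW (Cls)

namespace Pool.Agent.Results.MP_e9d732_al.TwistedWreath

/-- The inverse limit of the sequence `W 0 ← W 1 ← W 2 ← ...`: the group of all sequences `x` with
`p i (x (i + 1)) = x i`. -/
abbrev InvLim {W : ℕ → Type} [∀ i, Group (W i)] (p : ∀ i, W (i + 1) →* W i) : Subgroup (∀ i, W i) :=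
  Pool.Agent.TH15.IGP.Lim p

/-- The defining property of the inverse limit. -/
theorem mem_invLim {W : ℕ → Type} [∀ i, Group (W i)] (p : ∀ i, W (i + 1) →* W i)
    (x : ∀ i, W i) : x ∈ InvLim p ↔ ∀ i, p i (x (i + 1)) = x i := Iff.rfl

/-- The embedding problem over `K` given by the finite Galois extension `L` of `K` and the
projection `x ↦ e₀ (x 0)` of the inverse limit of the `W i` to `Gal(L/K)` has a proper solution:
there are a Galois extension `F` of `K` containing `L` and an isomorphism `γ` of `Gal(F/K)` with the
inverse limit, all of whose components are continuous (have open kernel), such that the action on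
`L` is `σ ↦ e₀ (component of γ σ in W 0)`. -/
def ProperSol (K L : Type) [Field K] [Field L] [Algebra K L] {W : ℕ → Type} [∀ i, Group (W i)]
    (p : ∀ i, W (i + 1) →* W i) (e₀ : W 0 ≃* (L ≃ₐ[K] L)) : Prop :=
  ∃ (F : Type) (_ : Field F) (_ : Algebra K F) (_ : Algebra L F) (_ : IsScalarTower K L F)
    (_ : IsGalois K F) (γ : (F ≃ₐ[K] F) ≃* InvLim p),
    (∀ i, IsOpen {σ : F ≃ₐ[K] F | (γ σ).1 i = 1}) ∧
    ∀ (σ : F ≃ₐ[K] F) (x : L), σ (algebraMap L F x) = algebraMap L F (e₀ ((γ σ).1 0) x)

end Pool.Agent.Results.MP_e9d732_al.TwistedWreath

open Pool.Agent.Results.MP_e9d732_al.TwistedWreath in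
theorem Pool.Agent.Results.MP_e9d732_al.TwistedWreath.result :
    ∀ (K : Type) [Field K],
      (∀ (f : Polynomial (Polynomial K)), f.Monic → Irreducible f →
          (f.map (algebraMap (Polynomial K) (FractionRing (Polynomial K)))).Separable →
          ∀ g : Polynomial K, g ≠ 0 →
            ∃ a : K, g.eval a ≠ 0 ∧ Irreducible (f.map (Polynomial.evalRingHom a))) →
      ∀ (L : Type) [Field L] [Algebra K L] [FiniteDimensional K L] [IsGalois K L]
        (W : ℕ → Type) [∀ i, Group (W i)] (e₀ : W 0 ≃* (L ≃ₐ[K] L))
        (p : ∀ i, W (i + 1) →* W i), (∀ i, Cls K (p i)) → ProperSol K L p e₀ := by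
  intro K _ hK L _ _ _ _ W _ e₀ p hp
  exact Pool.Agent.TH444.TW.cls_hilb hK W p hp L e₀
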