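import Mathlib
import Pool.Agent.TH59.WX.UH

/-!
# Symmetric fibre powers over all Hilbertian fields: a bound that depends only on the kernel

`K` is any Hilbertian field, of any characteristic (the hypothesis is that of the frozen statement
S03429), `F₁/K` any finite Galois extension, `α : E → Gal(F₁/K)` any weakly solvable finite
embedding problem, for example any split one.

* `WeakSol K F₁ E α`: there are a finite Galois extension `L'/K` containing `F₁` and a
  homomorphism `s : Gal(L'/K) → E` with `α ∘ s` the restriction (for example `L' = F₁` and `s` a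
  section of `α`, when the problem is split).
* `SymEP α n` is the group of all `(x, ρ)` with `x` in `E ≀ S_n = (Fin n → E) ⋊ Perm (Fin n)`,
  `ρ` in `Gal(F₁/K)` and `α (x.left i) = ρ` for every `i`; `symProj α n (x, ρ) = ρ`. For
  `E = G ⋊ Gal(F₁/K)` this is `(G ≀ S_n) ⋊ Gal(F₁/K)`.
* `SolOver K F₁ E α T False`: a proper solution over the extension `T` of `K`.
* `SolDeg K F₁ E α T n False`: a proper solution over the field of degree `n` over `T` fixed by a
  point stabiliser in a Galois extension of `T` with group `S_n`.

The starting files have such solutions for all `n ≥ n₀` with an `n₀` depending on `K`, `F₁`, `E` and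
`α`. Here `n ≥ ((3k + 2)!)^3` suffices, where `k` is the order of the kernel of `α`.
-/

set_option autoImplicit false

open Pool.Agent.H391R2 Pool.Agent.H391R2.T4

theorem Pool.Agent.Results.MP_e9d732_al.WreathHilbUniform.result :
    ∀ (K : Type) [Field K],
      (∀ (f : Polynomial (Polynomial K)), f.Monic → Irreducible f →
          (f.map (algebraMap (Polynomial K) (FractionRing (Polynomial K)))).Separable →
          ∀ g : Polynomial K, g ≠ 0 →
            ∃ a : K, g.eval a ≠ 0 ∧ Irreducible (f.map (Polynomial.evalRingHom a))) →
      ∀ (F₁ E : Type) [Field F₁] [Algebra K F₁] [FiniteDimensional K F₁] [IsGalois K F₁]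
        [Group E] [Finite E] (α : E →* (F₁ ≃ₐ[K] F₁)), WeakSol K F₁ E α →
        ∀ n : ℕ, ((3 * Nat.card α.ker + 2).factorial) ^ 3 ≤ n →
          SolOver K F₁ (SymEP α n) (symProj α n) K False ∧
          SolDeg K F₁ E α K n False := by
  intro K _ hK F₁ E _ _ _ _ _ _ α hw n hn
  exact Pool.Agent.TH59.WX.hil_fin_unif K F₁ E α hK hw n hn
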